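import Pool.Agent.H68.GHK.Targets
import Pool.Agent.H14.GHK.PHF

/-!
# Board ghk, row PHK: the matrix coefficient of a spherical form is the spherical function
-/

set_option autoImplicit false

namespace Pool.Agent.H83.GHK

open MeasureTheory Pool.Agent.H34.GM Pool.Agent.H34.GZ Pool.Agent.H34.GU Pool.Agent.H34.GA

lemma ph_meas (m : ℕ) :
    Measurable fun z : V m => ENNReal.ofReal ((|(mt z).det| ^ m)⁻¹) := by
  have h : Continuous fun z : V m => (mt z).det :=
    Pool.Agent.H69.GK.det_cont.comp Pool.Agent.H69.GK.mt_cont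
  exact ((h.abs.pow m).measurable.inv).ennreal_ofReal

lemma ph_int {E : Type} [NormedAddCommGroup E] [NormedSpace ℝ E] (m : ℕ) (f : V m → E) :
    ∫ z, f z ∂(hm m) = ∫ z, ((|(mt z).det| ^ m)⁻¹ : ℝ) • f z := by
  unfold hm
  rw [integral_withDensity_eq_integral_toReal_smul (ph_meas m)
    (Filter.Eventually.of_forall fun z => ENNReal.ofReal_lt_top)]
  refine integral_congr_ae (Filter.Eventually.of_forall fun z => ?_)
  show (ENNReal.ofReal ((|(mt z).det| ^ m)⁻¹)).toReal • f z = _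
  rw [ENNReal.toReal_ofReal (by positivity)]

private lemma ent_le {m : ℕ} (z : Mat m) (i j : Fin m) : |z i j| ≤ sz z := by
  unfold sz
  refine le_trans ?_ (norm_le_pi_norm (fun i j => z i j : V m) i)
  exact norm_le_pi_norm (fun j => z i j) j

lemma ph_ne {m : ℕ} (hm : 1 ≤ m) (w : Mat m)
    (h : sz (w.transpose * w - 1) ≤ 1 / (4 * m)) : w.det ≠ 0 := by
  have hm0 : (1 : ℝ) ≤ m := by exact_mod_cast hm
  have hq : (1 : ℝ) / (4 * m) ≤ 1 / 4 := by
    rw [div_le_div_iff₀ (by positivity) (by norm_num)]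
    linarith
  have he : ∀ i j, |(w.transpose * w - 1) i j| ≤ 1 / (4 * m) := fun i j =>
    (ent_le _ i j).trans h
  have hA : (w.transpose * w).det ≠ 0 := by
    refine det_ne_zero_of_sum_row_lt_diag fun k => ?_
    have h1 : ∀ j ∈ Finset.univ.erase k, ‖(w.transpose * w) k j‖ ≤ 1 / (4 * m) := by
      intro j hj
      have h2 := he k j
      rw [Matrix.sub_apply, Matrix.one_apply_ne (Finset.ne_of_mem_erase hj).symm, sub_zero] at h2
      exact h2
    have h3 : ∑ j ∈ Finset.univ.erase k, ‖(w.transpose * w) k j‖ ≤ 1 / 4 := by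
      refine (Finset.sum_le_sum h1).trans ?_
      rw [Finset.sum_const, nsmul_eq_mul]
      have h4 : ((Finset.univ.erase k).card : ℝ) ≤ m := by
        have : (Finset.univ.erase k).card ≤ m := by
          refine (Finset.card_le_card (Finset.erase_subset _ _)).trans ?_
          rw [Finset.card_univ, Fintype.card_fin]
        exact_mod_cast this
      calc ((Finset.univ.erase k).card : ℝ) * (1 / (4 * m)) ≤ m * (1 / (4 * m)) := by gcongr
        _ = 1 / 4 := by field_simp
    have h5 : (3 : ℝ) / 4 ≤ ‖(w.transpose * w) k k‖ := by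
      have h2 := he k k
      rw [Matrix.sub_apply, Matrix.one_apply_eq] at h2
      have h6 := (abs_le.1 h2).1
      rw [Real.norm_eq_abs]
      refine le_trans ?_ (le_abs_self _)
      linarith
    linarith
  intro h0
  apply hA
  rw [Matrix.det_mul, h0, mul_zero]

lemma ph_bd {m : ℕ} (hm : 1 ≤ m) (w : Mat m)
    (h : sz (w.transpose * w - 1) ≤ 1 / (4 * m)) : sz w ≤ 2 := by
  have hm0 : (1 : ℝ) ≤ m := by exact_mod_cast hm
  have h2 : (1 : ℝ) / (4 * m) ≤ 1 := by
    rw [div_le_one (by linarith)]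
    linarith
  unfold sz
  refine (pi_norm_le_iff_of_nonneg (by norm_num)).mpr fun i => ?_
  refine (pi_norm_le_iff_of_nonneg (by norm_num)).mpr fun j => ?_
  rw [Real.norm_eq_abs]
  have h3 := (ent_le (w.transpose * w - 1) j j).trans (h.trans h2)
  have h4 : (w.transpose * w - 1) j j = ∑ i, w i j ^ 2 - 1 := by
    rw [Matrix.sub_apply, Matrix.mul_apply, Matrix.one_apply_eq]
    congr 1
    refine Finset.sum_congr rfl fun i _ => ?_
    rw [Matrix.transpose_apply, sq]
  rw [h4] at h3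
  have h5 : w i j ^ 2 ≤ ∑ i, w i j ^ 2 :=
    Finset.single_le_sum (f := fun i => w i j ^ 2) (fun i _ => sq_nonneg _)
      (Finset.mem_univ i)
  have h6 := (abs_le.mp h3).2
  have h7 : |w i j| ^ 2 ≤ 2 ^ 2 := by
    rw [sq_abs]
    linarith
  exact le_of_sq_le_sq h7 (by norm_num)

/-- the compact set which contains the support -/
lemma ph_supp {m : ℕ} (hm : 1 ≤ m) : ∃ c : ℝ, 0 < c ∧ ∀ w : Mat m,
    sz (w.transpose * w - 1) ≤ 1 / (4 * m) → sz w ≤ c ∧ c⁻¹ ≤ |w.det| := by
  set K : Set (V m) := {w | sz ((mt w).transpose * mt w - 1) ≤ 1 / (4 * m)} with hK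
  have hcl : IsClosed K := by
    refine isClosed_le ?_ continuous_const
    refine Pool.Agent.H69.GK.sz_cont.comp ?_
    refine Continuous.sub ?_ continuous_const
    exact (Pool.Agent.H69.GK.mt_cont.matrix_transpose).matrix_mul Pool.Agent.H69.GK.mt_cont
  have hbd : K ⊆ Metric.closedBall (0 : V m) 2 := by
    intro w hw
    rw [mem_closedBall_zero_iff]
    exact ph_bd hm (mt w) hw
  have hcp : IsCompact K := (isCompact_closedBall (0 : V m) 2).of_isClosed_subset hcl hbd
  have hne : K.Nonempty := by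
    refine ⟨fun i j => (1 : Mat m) i j, ?_⟩
    show sz ((1 : Mat m).transpose * (1 : Mat m) - 1) ≤ 1 / (4 * m)
    rw [Matrix.transpose_one, Matrix.mul_one, sub_self]
    have h0 : sz (0 : Mat m) = 0 := by
      unfold sz
      exact norm_zero
    rw [h0]
    positivity
  have hco : Continuous fun z : V m => |(mt z).det| :=
    (Pool.Agent.H69.GK.det_cont.comp Pool.Agent.H69.GK.mt_cont).abs
  obtain ⟨w0, hw0, hmin⟩ := hcp.exists_isMinOn hne hco.continuousOn
  have hd0 : 0 < |(mt w0).det| := abs_pos.2 (ph_ne hm _ hw0)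
  refine ⟨max 2 |(mt w0).det|⁻¹, lt_of_lt_of_le (by norm_num) (le_max_left _ _), ?_⟩
  intro w hw
  refine ⟨(ph_bd hm w hw).trans (le_max_left _ _), ?_⟩
  have h1 : |(mt w0).det| ≤ |w.det| := hmin (a := (fun i j => w i j : V m)) hw
  refine le_trans ?_ h1
  rw [inv_le_comm₀ (lt_of_lt_of_le (by norm_num) (le_max_left _ _)) hd0]
  exact le_max_right _ _

/-- the density with respect to the Haar measure -/
noncomputable def kh {m : ℕ} (κ : Mat m → ℝ) (w : Mat m) : ℝ := κ w * |w.det| ^ m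

lemma kh_kap {m : ℕ} (hm1 : 1 ≤ m) {κ : Mat m → ℝ} (hκ : Pool.Agent.H68.GHK.Kap m κ) :
    Pool.Agent.H69.GK.Kap m (kh κ) := by
  obtain ⟨c, hc, hs⟩ := ph_supp hm1
  have hk0 : ∀ w : Mat m, κ w ≠ 0 → w.det ≠ 0 := fun w hw => ph_ne hm1 w (hκ.supp w hw)
  refine ⟨?_, ?_, ⟨c, hc, ?_⟩, ?_, ?_⟩
  · have h1 : Continuous κ := hκ.cont
    exact h1.mul (Pool.Agent.H69.GK.det_cont.abs.pow m)
  · intro z
    exact mul_nonneg (hκ.nn z) (by positivity)
  · intro z hz
    refine hs z (hκ.supp z fun h => hz ?_)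
    unfold kh
    rw [h, zero_mul]
  · intro u hu z
    unfold kh
    have hd : u.det * u.det = 1 := by
      have := congrArg Matrix.det hu
      rwa [Matrix.det_mul, Matrix.det_transpose, Matrix.det_one] at this
    have hd1 : |u.det| = 1 := by
      have : |u.det| * |u.det| = 1 := by rw [← abs_mul, hd, abs_one]
      nlinarith [abs_nonneg u.det]
    rw [hκ.inv u hu z, Matrix.det_mul, abs_mul, hd1, one_mul]
  · rw [ph_int, ← hκ.one]
    refine integral_congr_ae (Filter.Eventually.of_forall fun z => ?_)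
    show ((|(mt z).det| ^ m)⁻¹ : ℝ) • (κ (mt z) * |(mt z).det| ^ m) = κ (mt z)
    by_cases h0 : κ (mt z) = 0
    · rw [h0]
      simp
    · have h1 := abs_pos.2 (hk0 _ h0)
      rw [smul_eq_mul]
      field_simp

private lemma ip_one {m N : ℕ} [NeZero N] {D : Set (V m)} {F : Mat m → VN m N → ℂ} :
    Pool.Agent.H23.GHK.ip D F F = (nU D F : ℂ) := by
  unfold Pool.Agent.H23.GHK.ip nU
  rw [Complex.ofReal_sum]
  apply Finset.sum_congr rfl
  intro x _
  rw [← integral_complex_ofReal]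
  apply integral_congr_ae
  refine Filter.Eventually.of_forall ?_
  intro z
  simp only [RCLike.mul_conj]
  norm_cast

/-- row PHK -/
theorem pf_PHK (hM : T_MSR) (hH : T_HAR) (hHC : T_HAC) (hPC : T_PWC) (hV : T_VLM) (hR : T_RTI)
    (hA : T_ALU) : Pool.Agent.H68.GHK.T_PHK := by
  intro m κ hm1 hκ N _ T D hS F lam mu hF h1 z hz
  have h := Pool.Agent.H14.GHK.cf_phk hM hH hHC hPC hV hR hA hS hF.toEigU hF.toEigU
    (kh_kap hm1 hκ) hz
  have h2 : Pool.Agent.H68.GHK.ip D (Pool.Agent.H68.GHK.rt z⁻¹ F) F =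
      Pool.Agent.H14.GHK.cf D F F z := rfl
  rw [h2, h, ip_one, h1, Complex.ofReal_one, one_mul]
  unfold Pool.Agent.H69.GK.phi0
  rw [ph_int]
  refine integral_congr_ae (Filter.Eventually.of_forall fun w => ?_)
  show ((|(mt w).det| ^ m)⁻¹ : ℝ) • (((κ (mt w) * |(mt w).det| ^ m : ℝ) : ℂ) *
    (pw mu (z * mt w) / pw mu (mt w))) = (κ (mt w) : ℂ) * (pw mu (z * mt w) / pw mu (mt w))
  by_cases h0 : κ (mt w) = 0
  · rw [h0]
    simp
  · have h3 : 0 < |(mt w).det| := abs_pos.2 (ph_ne hm1 _ (hκ.supp _ h0))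
    rw [Complex.real_smul, ← mul_assoc, ← Complex.ofReal_mul]
    congr 2
    field_simp

end Pool.Agent.H83.GHK
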