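import Pool.Agent.H68.GHK.Targets

/-!
# Board ghk, row LSH: the large sieve for the short sums, with the weights
-/

set_option autoImplicit false

namespace Pool.Agent.H83.GHK

open MeasureTheory Pool.Agent.H34.GM Pool.Agent.H34.GZ Pool.Agent.H34.GU Pool.Agent.H34.GA
  Pool.Agent.H68.GHY Pool.Agent.H68.GHK

private lemma ls_sum {α ι : Type} [MeasurableSpace α] [DecidableEq ι] (μ : Measure α)
    (s : Finset ι) (f : ι → α → ENNReal) :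
    ∑ i ∈ s, ∫⁻ x, f i x ∂μ ≤ ∫⁻ x, ∑ i ∈ s, f i x ∂μ := by
  induction s using Finset.induction_on with
  | empty => simp
  | insert a s ha ih =>
    rw [Finset.sum_insert ha]
    have h1 : ∀ x, ∑ i ∈ insert a s, f i x = f a x + ∑ i ∈ s, f i x := fun x =>
      Finset.sum_insert ha
    simp only [h1]
    exact (add_le_add le_rfl ih).trans (le_lintegral_add _ _)

private lemma ls_log {CM Nr y di : ℝ} {A : ℕ} (hCM : 1 ≤ CM) (hN : 1 ≤ Nr) (hy : 1 ≤ y)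
    (hd : 2 ≤ di) :
    1 + Real.log (y * max 2 (CM * Nr * di ^ A) * Nr) ≤
      (Real.log (2 * CM) + A + 3) * (1 + Real.log (y * Nr * di)) := by
  have hd1 : (1 : ℝ) ≤ di := by linarith
  have hdA : (1 : ℝ) ≤ di ^ A := one_le_pow₀ hd1
  have h1 : max 2 (CM * Nr * di ^ A) ≤ 2 * CM * Nr * di ^ A := by
    have e1 : (1 : ℝ) ≤ CM * Nr * di ^ A := by
      have e2 : (1 : ℝ) ≤ CM * Nr := one_le_mul_of_one_le_of_one_le hCM hN
      exact one_le_mul_of_one_le_of_one_le e2 hdA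
    refine max_le ?_ ?_
    · nlinarith
    · nlinarith
  have hyN : (1 : ℝ) ≤ y * Nr := one_le_mul_of_one_le_of_one_le hy hN
  have hyNd : (1 : ℝ) ≤ y * Nr * di := one_le_mul_of_one_le_of_one_le hyN hd1
  have hL : 0 ≤ Real.log (y * Nr * di) := Real.log_nonneg hyNd
  have hM : 0 ≤ Real.log (2 * CM) := Real.log_nonneg (by linarith)
  have h2 : y * max 2 (CM * Nr * di ^ A) * Nr ≤ 2 * CM * (y * Nr * di) ^ (A + 2) := by
    have e1 : y * max 2 (CM * Nr * di ^ A) * Nr ≤ y * (2 * CM * Nr * di ^ A) * Nr := by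
      gcongr
    refine e1.trans ?_
    have e3 : Nr ≤ Nr ^ (A + 1) := le_self_pow₀ hN (by omega)
    have e4 : y ≤ y ^ (A + 2) := le_self_pow₀ hy (by omega)
    have e5 : di ^ A ≤ di ^ (A + 2) := pow_le_pow_right₀ hd1 (by omega)
    have e6 : y * (2 * CM * Nr * di ^ A) * Nr = 2 * CM * (y * (Nr * Nr) * di ^ A) := by ring
    have e7 : Nr * Nr ≤ Nr ^ (A + 2) := by
      calc Nr * Nr ≤ Nr ^ (A + 1) * Nr := by gcongr
        _ = Nr ^ (A + 2) := by ring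
    rw [e6, mul_pow, mul_pow]
    gcongr
  have h0 : 0 < y * max 2 (CM * Nr * di ^ A) * Nr := by positivity
  have h3 : Real.log (y * max 2 (CM * Nr * di ^ A) * Nr) ≤
      Real.log (2 * CM) + (A + 2) * Real.log (y * Nr * di) := by
    refine (Real.log_le_log h0 h2).trans ?_
    rw [Real.log_mul (by positivity) (by positivity), Real.log_pow]
    push_cast
    exact le_rfl
  have hA : (0 : ℝ) ≤ A := Nat.cast_nonneg A
  nlinarith [mul_nonneg hM hL, mul_nonneg hA hL]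

theorem pf_LSH : T_PRF → T_LSK → T_ENG → T_TBS → T_DYM → T_LSH := by
  intro hPRF hLSK hENG hTBS hDYM m hm1 r ε hr hε
  obtain ⟨χ, hχ⟩ := hPRF
  obtain ⟨cM, CM, AM, hcM, hCM, hM⟩ := hLSK m χ r hm1 hχ hr
  obtain ⟨CE, K, hCE, hE⟩ := hENG m hm1 ε hε
  obtain ⟨cT, CT, hcT, hCT, hTb⟩ := hTBS m χ hm1 hχ
  have hCM0 : 0 < CM := by linarith
  have hB : 0 < Real.log (2 * CM) + AM + 3 := by
    have := Real.log_nonneg (show (1 : ℝ) ≤ 2 * CM by linarith)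
    positivity
  refine ⟨cM, (cT ^ 2)⁻¹ * CM * CE * (Real.log (2 * CM) + AM + 3) ^ K, K, hcM, by positivity, ?_⟩
  intro N _ T D hS ι _ _ F lam P hF hO δ hδ hδ2 hδc y a hy ha
  have hdi : (2 : ℝ) ≤ δ⁻¹ := by
    rw [le_inv_comm₀ (by norm_num) hδ]
    linarith
  have hN2 : 2 ≤ N := hS.two_le
  have hN1 : (1 : ℝ) ≤ N := by exact_mod_cast (by omega : 1 ≤ N)
  set Y : ℝ := max 2 (CM * N * δ⁻¹ ^ AM) with hY
  have hY2 : (2 : ℝ) ≤ Y := le_max_left _ _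
  have hY1 : CM * N * δ⁻¹ ^ AM ≤ Y := le_max_right _ _
  set κ : ℝ := (cT * δ ^ (m ^ 2 - 1)) ^ 2 with hκ
  have hκ0 : 0 < κ := by positivity
  have hκT : κ ≤ tb m χ δ ^ 2 := by
    rw [hκ]
    have := (hTb δ hδ hδ2).1
    gcongr
  -- the bound at each point
  have h1 : ∀ x0 : ℝ, 0 < x0 → ENNReal.ofReal κ *
      ∑ i, ENNReal.ofReal (Hn r D (F i))⁻¹ *
        ENNReal.ofReal (‖Bs m (lam i) a y δ x0‖ ^ 2 * x0⁻¹) ≤
      ENNReal.ofReal CM *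
        ((∫⁻ g in DY D Y, Ed N D δ y x0 (mt g) ∂(hm m)) * ENNReal.ofReal x0⁻¹) := by
    intro x0 hx0
    have e1 := hM N T D hS ι F lam P hF hO δ hδ hδ2 hδc y a x0 Y hy ha hx0 hY1
    have e3 : ENNReal.ofReal κ *
        ∑ i, ENNReal.ofReal (‖Bs m (lam i) a y δ x0‖ ^ 2 * (Hn r D (F i))⁻¹) ≤
        ENNReal.ofReal CM * ∫⁻ g in DY D Y, Ed N D δ y x0 (mt g) ∂(hm m) :=
      (mul_le_mul' (ENNReal.ofReal_le_ofReal hκT) le_rfl).trans e1
    have e4 : ∑ i, ENNReal.ofReal (Hn r D (F i))⁻¹ *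
          ENNReal.ofReal (‖Bs m (lam i) a y δ x0‖ ^ 2 * x0⁻¹) =
        (∑ i, ENNReal.ofReal (‖Bs m (lam i) a y δ x0‖ ^ 2 * (Hn r D (F i))⁻¹)) *
          ENNReal.ofReal x0⁻¹ := by
      rw [Finset.sum_mul]
      refine Finset.sum_congr rfl fun i _ => ?_
      rw [ENNReal.ofReal_mul (by positivity), ENNReal.ofReal_mul (by positivity)]
      ring
    rw [e4, ← mul_assoc, ← mul_assoc]
    exact mul_le_mul' e3 le_rfl
  -- integrate
  have h2 : ENNReal.ofReal κ * ∑ i, ENNReal.ofReal (Hn r D (F i))⁻¹ *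
      ∫⁻ x0 in Set.Ioi (0 : ℝ), ENNReal.ofReal (‖Bs m (lam i) a y δ x0‖ ^ 2 * x0⁻¹) ≤
      ENNReal.ofReal CM * ENNReal.ofReal (CE * δ ^ (m ^ 2) * (N : ℝ) ^ ((m : ℝ) + ε) *
        (1 + Real.log (y * Y * N)) ^ K * y ^ (2 * m) * (1 + δ ^ m * y ^ 2 / N) ^ m) := by
    refine le_trans ?_ (mul_le_mul' le_rfl (hE N D hN2 hS.dom y Y δ hy hY2 hδ hδ2))
    have e6 : ∑ i, ENNReal.ofReal (Hn r D (F i))⁻¹ *
        ∫⁻ x0 in Set.Ioi (0 : ℝ), ENNReal.ofReal (‖Bs m (lam i) a y δ x0‖ ^ 2 * x0⁻¹) =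
        ∑ i, ∫⁻ x0 in Set.Ioi (0 : ℝ), ENNReal.ofReal (Hn r D (F i))⁻¹ *
          ENNReal.ofReal (‖Bs m (lam i) a y δ x0‖ ^ 2 * x0⁻¹) :=
      Finset.sum_congr rfl fun i _ => (lintegral_const_mul' _ _ ENNReal.ofReal_ne_top).symm
    rw [e6]
    refine (mul_le_mul' le_rfl (ls_sum _ Finset.univ _)).trans ?_
    rw [← lintegral_const_mul' _ _ ENNReal.ofReal_ne_top,
      ← lintegral_const_mul' _ _ ENNReal.ofReal_ne_top]
    exact setLIntegral_mono' measurableSet_Ioi fun x0 hx0 => h1 x0 hx0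
  set S : ENNReal := ∑ i, ENNReal.ofReal (Hn r D (F i))⁻¹ *
      ∫⁻ x0 in Set.Ioi (0 : ℝ), ENNReal.ofReal (‖Bs m (lam i) a y δ x0‖ ^ 2 * x0⁻¹) with hSdef
  have hk1 : ENNReal.ofReal κ ≠ 0 := by
    rw [Ne, ENNReal.ofReal_eq_zero, not_le]
    exact hκ0
  have h3 : S = ENNReal.ofReal κ⁻¹ * (ENNReal.ofReal κ * S) := by
    rw [ENNReal.ofReal_inv_of_pos hκ0, ← mul_assoc, ENNReal.inv_mul_cancel hk1
      ENNReal.ofReal_ne_top, one_mul]
  rw [h3]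
  refine (mul_le_mul' le_rfl h2).trans ?_
  rw [← ENNReal.ofReal_mul hCM0.le, ← ENNReal.ofReal_mul (by positivity)]
  apply ENNReal.ofReal_le_ofReal
  have hlog0 : 0 ≤ Real.log (y * N * δ⁻¹) := by
    apply Real.log_nonneg
    have e2 : (1 : ℝ) ≤ y * N := one_le_mul_of_one_le_of_one_le hy hN1
    exact one_le_mul_of_one_le_of_one_le e2 (by linarith)
  have h4 := ls_log (A := AM) hCM hN1 hy hdi
  rw [← hY] at h4
  have h5 : 0 ≤ 1 + Real.log (y * Y * N) := by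
    have e1 : (1 : ℝ) ≤ y * Y := one_le_mul_of_one_le_of_one_le hy (by linarith)
    have e2 : (1 : ℝ) ≤ y * Y * N := one_le_mul_of_one_le_of_one_le e1 hN1
    have := Real.log_nonneg e2
    linarith
  have h6 : (1 + Real.log (y * Y * N)) ^ K ≤
      (Real.log (2 * CM) + AM + 3) ^ K * (1 + Real.log (y * N * δ⁻¹)) ^ K := by
    rw [← mul_pow]
    exact pow_le_pow_left₀ h5 h4 K
  have h7 : κ⁻¹ * δ ^ (m ^ 2) = (cT ^ 2)⁻¹ * (δ ^ 2 * δ⁻¹ ^ (m ^ 2)) := by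
    rw [hκ]
    have hm2 : 1 ≤ m ^ 2 := Nat.one_le_pow _ _ (by omega)
    obtain ⟨n, hn⟩ : ∃ n, m ^ 2 = n + 1 := ⟨m ^ 2 - 1, by omega⟩
    rw [hn, Nat.add_sub_cancel, inv_pow]
    field_simp
    ring
  have hX : 0 ≤ (N : ℝ) ^ ((m : ℝ) + ε) := by positivity
  calc κ⁻¹ * (CM * (CE * δ ^ (m ^ 2) * (N : ℝ) ^ ((m : ℝ) + ε) *
        (1 + Real.log (y * Y * N)) ^ K * y ^ (2 * m) * (1 + δ ^ m * y ^ 2 / N) ^ m))
      = (κ⁻¹ * δ ^ (m ^ 2)) * (CM * CE * (N : ℝ) ^ ((m : ℝ) + ε) * y ^ (2 * m) *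
        (1 + δ ^ m * y ^ 2 / N) ^ m) * (1 + Real.log (y * Y * N)) ^ K := by ring
    _ ≤ (κ⁻¹ * δ ^ (m ^ 2)) * (CM * CE * (N : ℝ) ^ ((m : ℝ) + ε) * y ^ (2 * m) *
        (1 + δ ^ m * y ^ 2 / N) ^ m) *
          ((Real.log (2 * CM) + AM + 3) ^ K * (1 + Real.log (y * N * δ⁻¹)) ^ K) := by
        have : 0 ≤ (κ⁻¹ * δ ^ (m ^ 2)) * (CM * CE * (N : ℝ) ^ ((m : ℝ) + ε) * y ^ (2 * m) *
            (1 + δ ^ m * y ^ 2 / N) ^ m) := by positivity
        exact mul_le_mul_of_nonneg_left h6 this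
    _ = _ := by
        rw [h7]
        ring

end Pool.Agent.H83.GHK
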